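import Pool.Agent.Y667.MT.Stm
import Pool.Agent.Y890.RZ.CVW
import Pool.Agent.Y212.RZ.Selc2

/-!
# Project MT (helper667), part CVN: from pairs to curves with a 2-Selmer group of order `N`

An adaptation of `Pool.Agent.Y890.RZ.CVW`.
-/

set_option autoImplicit false

namespace Pool.Agent.Y738.MT

open Finset Pool.Agent.W262.RK Pool.Agent.W307.RT Pool.Agent.W307.RS Pool.Agent.W307.SE
  Pool.Agent.W307.FK Pool.Agent.Y667.RP Pool.Agent.Y667.RZ Pool.Agent.Y667.MT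
open Pool.Agent.Y285.RP Pool.Agent.Y285.RZ

/-- the target -/
def TN (N : ℕ) (k : ℤ × ℤ) : Prop := (SelR k.1 k.2).Finite ∧ (SelR k.1 k.2).ncard = N

theorem tgN {N : ℕ} {a b k : ℤ} (h : a + b = 3 * k) (hb : 1 ≤ b) (hab : b < a)
    (hf : (Sel a b).Finite) (hn : (Sel a b).ncard = N) : TN N (cc a b k) := by
  obtain ⟨h1, h2, -⟩ := Pool.Agent.Y890.RZ.tgw Pool.Agent.Y212.RZ.SELC2 h hb hab hf
  exact ⟨h1, h2.trans hn⟩

/-- what is known about the good pairs -/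
lemma factsN {N X : ℕ} {t : ℕ × ℕ} (ht1 : t ∈ Icc 1 X ×ˢ Icc 1 X) (ht : GoodN N X t) :
    (t.1 : ℤ) + t.2 = 3 * (((t.1 + t.2) / 3 : ℕ) : ℤ) ∧ (1 : ℤ) ≤ t.2 ∧ (t.2 : ℤ) < t.1 ∧
      (t.1 : ℤ) ≤ X ∧ IsCoprime (t.1 : ℤ) (t.2 : ℤ) ∧ (t.1 : ℤ) % 17 = 1 ∧ (t.2 : ℤ) % 17 = 15 := by
  rw [mem_product, mem_Icc, mem_Icc] at ht1
  obtain ⟨g1, g2⟩ := ht1
  obtain ⟨g3, g4, g5, g6, g7, g8, g9, g10, g11, -⟩ := ht
  exact ⟨by omega, by omega, by omega, by omega, Nat.isCoprime_iff_coprime.2 g11, by omega,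
      by omega⟩

open Classical in
/-- the curve of the pair itself -/
lemma injN1 {N X H : ℕ} (hX2 : 64 * (17 * X) ^ 6 ≤ H) (G : Finset (ℕ × ℕ))
    (hG : ∀ t ∈ G, t ∈ Icc 1 X ×ˢ Icc 1 X ∧ GoodN N X t) (T : ℤ × ℤ → Prop)
    (hT : ∀ t ∈ G, T (cc (t.1 : ℤ) (t.2 : ℤ) (((t.1 + t.2) / 3 : ℕ) : ℤ))) :
    G.card ≤ ((Cv 2 H).filter T).card := by
  apply card_le_card_of_injOn
      (fun t => cc (t.1 : ℤ) (t.2 : ℤ) (((t.1 + t.2) / 3 : ℕ) : ℤ))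
  · intro t ht
    rw [mem_coe] at ht
    obtain ⟨f1, f2, f3, f4, f5, f6, f7⟩ := factsN (hG t ht).1 (hG t ht).2
    have hX4 : 64 * X ^ 6 ≤ H := by
      refine le_trans ?_ hX2
      gcongr
      omega
    have hm := cc_mem' f1 f2 f3 f4 (mn1 f1 f5) hX4
    rw [mem_coe, mem_filter]
    exact ⟨hm, hT t ht⟩
  · intro t ht t' ht' he
    rw [mem_coe] at ht ht'
    obtain ⟨f1, f2, f3, -⟩ := factsN (hG t ht).1 (hG t ht).2
    obtain ⟨f1', f2', f3', -⟩ := factsN (hG t' ht').1 (hG t' ht').2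
    obtain ⟨r1, r2⟩ := cc_inj f1 f1' f2 f3 f2' f3' he
    exact Prod.ext (by exact_mod_cast r1) (by exact_mod_cast r2)

open Classical in
/-- the twist by `17` -/
lemma injN17 {N X H : ℕ} (hX2 : 64 * (17 * X) ^ 6 ≤ H) (G : Finset (ℕ × ℕ))
    (hG : ∀ t ∈ G, t ∈ Icc 1 X ×ˢ Icc 1 X ∧ GoodN N X t) (T : ℤ × ℤ → Prop)
    (hT : ∀ t ∈ G, T (cc (17 * (t.1 : ℤ)) (17 * (t.2 : ℤ)) (17 * (((t.1 + t.2) / 3 : ℕ) : ℤ)))) :
    G.card ≤ ((Cv 2 H).filter T).card := by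
  apply card_le_card_of_injOn
      (fun t => cc (17 * (t.1 : ℤ)) (17 * (t.2 : ℤ)) (17 * (((t.1 + t.2) / 3 : ℕ) : ℤ)))
  · intro t ht
    rw [mem_coe] at ht
    obtain ⟨f1, f2, f3, f4, f5, f6, f7⟩ := factsN (hG t ht).1 (hG t ht).2
    have q1 : 17 * (t.1 : ℤ) + 17 * t.2 = 3 * (17 * (((t.1 + t.2) / 3 : ℕ) : ℤ)) := by
      linarith
    have hm := cc_mem' (X := 17 * X) q1 (by linarith) (by linarith)
      (by push_cast; linarith) (mn17 f1 f5 f6 f7) hX2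
    rw [mem_coe, mem_filter]
    exact ⟨hm, hT t ht⟩
  · intro t ht t' ht' he
    rw [mem_coe] at ht ht'
    obtain ⟨f1, f2, f3, -⟩ := factsN (hG t ht).1 (hG t ht).2
    obtain ⟨f1', f2', f3', -⟩ := factsN (hG t' ht').1 (hG t' ht').2
    have q1 : 17 * (t.1 : ℤ) + 17 * t.2 = 3 * (17 * (((t.1 + t.2) / 3 : ℕ) : ℤ)) := by
      linarith
    have q1' : 17 * (t'.1 : ℤ) + 17 * t'.2 = 3 * (17 * (((t'.1 + t'.2) / 3 : ℕ) : ℤ)) := by
      linarith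
    obtain ⟨r1, r2⟩ := cc_inj q1 q1' (by linarith) (by linarith) (by linarith) (by linarith) he
    have r1' : (t.1 : ℤ) = t'.1 := by linarith
    have r2' : (t.2 : ℤ) = t'.2 := by linarith
    exact Prod.ext (by exact_mod_cast r1') (by exact_mod_cast r2')

/-- **CVN**: from pairs to curves with a 2-Selmer group of order `N`. -/
theorem CVN : St_CVN := by
  classical
  rintro N ⟨c, hc, X0, hX0⟩
  refine ⟨c / 160000, by positivity, 64 * (17 * max X0 1) ^ 6, fun H hH => ?_⟩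
  obtain ⟨X, hXX0, hX2, h3⟩ := Pool.Agent.Y890.RZ.size_exists X0 H hH
  have h1 := hX0 X hXX0
  set G := (Icc 1 X ×ˢ Icc 1 X).filter (GoodN N X) with hG
  set p : ℕ × ℕ → Prop := fun t => (Sel (t.1 : ℤ) (t.2 : ℤ)).Finite ∧
    (Sel (t.1 : ℤ) (t.2 : ℤ)).ncard = N with hp
  have hmem : ∀ t ∈ G, t ∈ Icc 1 X ×ˢ Icc 1 X ∧ GoodN N X t := by
    intro t ht
    rw [hG, mem_filter] at ht
    exact ht
  have hmem1 : ∀ t ∈ G.filter p, t ∈ Icc 1 X ×ˢ Icc 1 X ∧ GoodN N X t :=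
    fun t ht => hmem t (mem_filter.1 ht).1
  have hmem2 : ∀ t ∈ G.filter (fun t => ¬ p t), t ∈ Icc 1 X ×ˢ Icc 1 X ∧ GoodN N X t :=
    fun t ht => hmem t (mem_filter.1 ht).1
  have a1 : (G.filter p).card ≤ ((Cv 2 H).filter (TN N)).card := by
    refine injN1 hX2 _ hmem1 (TN N) fun t ht => ?_
    obtain ⟨f1, f2, f3, f4, f5, f6, f7⟩ := factsN (hmem1 t ht).1 (hmem1 t ht).2
    have hpt : p t := (mem_filter.1 ht).2
    exact tgN f1 f2 f3 hpt.1 hpt.2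
  have a2 : (G.filter (fun t => ¬ p t)).card ≤ ((Cv 2 H).filter (TN N)).card := by
    refine injN17 hX2 _ hmem2 (TN N) fun t ht => ?_
    obtain ⟨f1, f2, f3, f4, f5, f6, f7⟩ := factsN (hmem2 t ht).1 (hmem2 t ht).2
    have hpt : ¬ p t := (mem_filter.1 ht).2
    obtain ⟨-, -, -, -, -, -, -, -, -, g | g⟩ := (hmem2 t ht).2
    · exact absurd g hpt
    · exact tgN (by linarith) (by linarith) (by linarith) g.1 g.2
  have hsum := card_filter_add_card_filter_not (s := G) p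
  have k4 : G.card ≤ 2 * ((Cv 2 H).filter (TN N)).card := by omega
  have h3' : ((Cv 2 H).card : ℝ) ≤ 80000 * (X : ℝ) ^ 2 := by exact_mod_cast h3
  have h4' : (G.card : ℝ) ≤ 2 * (((Cv 2 H).filter (TN N)).card : ℝ) := by exact_mod_cast k4
  have h5 : c / 160000 * ((Cv 2 H).card : ℝ) ≤ c / 160000 * (80000 * (X : ℝ) ^ 2) := by gcongr
  have h6 : c * (X : ℝ) ^ 2 ≤ (G.card : ℝ) := h1
  have h7 : c / 160000 * (80000 * (X : ℝ) ^ 2) = c * (X : ℝ) ^ 2 / 2 := by ring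
  have e : ((Cv 2 H).filter (TN N)) = ((Cv 2 H).filter (fun k : ℤ × ℤ => (SelR k.1 k.2).Finite ∧
      (SelR k.1 k.2).ncard = N)) := by
    ext k
    rw [mem_filter, mem_filter]
    rfl
  rw [← e]
  linarith

end Pool.Agent.Y738.MT
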